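import Mathlib

namespace Pool.Agent.H.MP_f878ff_nt

open Finset

def Rep (η : ℝ) (m : ℕ) (x : ℝ) : Prop :=
  ∃ (k : ℕ) (c : ℕ → ℕ), (∀ j, c j ≤ m) ∧ x = ∑ j ∈ range k, (c j : ℝ) * η ^ (j + 1)

theorem Rep.mono {η x : ℝ} {m n : ℕ} (h : Rep η m x) (hn : m ≤ n) : Rep η n x := by
  obtain ⟨k, c, h1, h2⟩ := h
  exact ⟨k, c, fun j => (h1 j).trans hn, h2⟩

theorem Rep.cons {η x : ℝ} {m d : ℕ} (h : Rep η m x) (hd : d ≤ m) : Rep η m (η * (d + x)) := by
  obtain ⟨k, c, h1, rfl⟩ := h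
  refine ⟨k + 1, fun j => Nat.casesOn j d c, fun j => by cases j <;> simp [*], ?_⟩
  rw [sum_range_succ', mul_add, mul_sum, add_comm]
  congr 1
  · exact sum_congr rfl fun j _ => by simp; ring
  · simp; ring

theorem rep_of_mem {η x : ℝ} (h : x ∈ Algebra.adjoin ℕ {η}) : ∃ m, Rep η m (η * x) := by
  rw [Algebra.adjoin_singleton_eq_range_aeval] at h
  obtain ⟨P, rfl⟩ := h
  refine ⟨(range (P.natDegree + 1)).sup P.coeff, P.natDegree + 1, P.coeff, fun j => ?_, ?_⟩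
  · by_cases hj : j < P.natDegree + 1
    · exact le_sup (f := P.coeff) (mem_range.2 hj)
    · rw [Polynomial.coeff_eq_zero_of_natDegree_lt (by omega)]; exact Nat.zero_le _
  · simp only [AlgHom.toRingHom_eq_coe, RingHom.coe_coe]
    rw [Polynomial.aeval_eq_sum_range, mul_sum]
    exact sum_congr rfl fun j _ => by simp; ring

theorem relation (δ : ℂ) (h : 0 < δ.im) : ∃ (k : ℕ) (c A B : ℝ), 0 < c ∧ 0 ≤ A ∧ 0 ≤ B ∧
    (c : ℂ) + A * δ ^ k + B * δ ^ (k + 1) = 0 := by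
  have ex : ∃ j, (δ ^ (j + 1)).im ≤ 0 := by
    have t0 : 0 < δ.arg := lt_of_le_of_ne (Complex.arg_nonneg_iff.2 h.le) fun e => by
      have := (Complex.arg_eq_zero_iff.1 e.symm).2; linarith
    have t1 : δ.arg < Real.pi := Complex.arg_lt_pi_iff.2 (Or.inr h.ne')
    have j0 : 0 < ⌈Real.pi / δ.arg⌉₊ := Nat.ceil_pos.2 (div_pos Real.pi_pos t0)
    refine ⟨⌈Real.pi / δ.arg⌉₊ - 1, ?_⟩
    rw [Nat.sub_add_cancel j0]
    have l1 := Nat.le_ceil (Real.pi / δ.arg)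
    have l2 := Nat.ceil_lt_add_one (div_pos Real.pi_pos t0).le
    generalize ⌈Real.pi / δ.arg⌉₊ = j at *
    rw [div_le_iff₀ t0] at l1
    rw [← sub_lt_iff_lt_add, lt_div_iff₀ t0] at l2
    have e : δ ^ j = ((‖δ‖ ^ j : ℝ) : ℂ) * Complex.exp ((j * δ.arg : ℝ) * Complex.I) := by
      conv_lhs => rw [← Complex.norm_mul_exp_arg_mul_I δ]
      rw [mul_pow, ← Complex.exp_nat_mul]; push_cast; ring_nf
    rw [e, Complex.im_ofReal_mul, Complex.exp_ofReal_mul_I_im]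
    refine mul_nonpos_of_nonneg_of_nonpos (by positivity) ?_
    have := Real.sin_nonneg_of_nonneg_of_le_pi (x := j * δ.arg - Real.pi) (by linarith)
      (by linarith)
    rw [Real.sin_sub_pi] at this; linarith
  classical
  have h1 := Nat.find_spec ex
  have h0 : Nat.find ex ≠ 0 := fun e => by rw [e] at h1; simp at h1; linarith
  have h2 := not_le.1 (Nat.find_min ex (m := Nat.find ex - 1) (by omega))
  rw [Nat.sub_add_cancel (by omega)] at h2
  generalize Nat.find ex = k at *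
  refine ⟨k, ((δ ^ k).re ^ 2 + (δ ^ k).im ^ 2) * δ.im, -(δ ^ (k + 1)).im, (δ ^ k).im,
    by positivity, by linarith, h2.le, ?_⟩
  rw [pow_succ δ k]
  generalize δ ^ k = z
  apply Complex.ext <;> simp [pow_two] <;> ring

theorem coords {R : Type} [CommRing R] (a b : ℤ) (h : R) (hh : h ^ 3 + b * h ^ 2 + a * h - 1 = 0)
    (p : R) (hp : p ∈ Algebra.adjoin ℤ {h}) : ∃ u v w : ℤ, p = u + v * h + w * h ^ 2 := by
  induction hp using Algebra.adjoin_induction with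
  | mem x hx => exact ⟨0, 1, 0, by simp [Set.mem_singleton_iff.1 hx]⟩
  | algebraMap r => exact ⟨r, 0, 0, by simp⟩
  | add x y _ _ hx hy =>
    obtain ⟨u, v, w, rfl⟩ := hx; obtain ⟨u', v', w', rfl⟩ := hy
    exact ⟨u + u', v + v', w + w', by push_cast; ring⟩
  | mul x y _ _ hx hy =>
    obtain ⟨u, v, w, rfl⟩ := hx; obtain ⟨u', v', w', rfl⟩ := hy
    refine ⟨u * u' + (v * w' + w * v') - b * (w * w'),
      u * v' + v * u' - a * (v * w' + w * v') + (1 + a * b) * (w * w'),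
      u * w' + v * v' + w * u' - b * (v * w' + w * v') + (b ^ 2 - a) * (w * w'), ?_⟩
    push_cast
    linear_combination ((v * w' + w * v' : R) + (w * w') * (h - b)) * hh

theorem bound (η : ℝ) (δ : ℂ) (h : δ.im ≠ 0) : ∃ K : ℝ, 0 < K ∧ ∀ u v w : ℝ,
    ‖(u, v, w)‖ ≤ K * ‖((u + v * η + w * η ^ 2, u + v * δ + w * δ ^ 2) : ℝ × ℂ)‖ := by
  let f : (ℝ × ℝ × ℝ) →ₗ[ℝ] ℝ × ℂ :=
    { toFun := fun t => (t.1 + t.2.1 * η + t.2.2 * η ^ 2, t.1 + t.2.1 * δ + t.2.2 * δ ^ 2)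
      map_add' := fun s t => by ext <;> simp <;> ring
      map_smul' := fun s t => by ext <;> simp <;> ring }
  have hf : LinearMap.ker f = ⊥ := by
    rw [LinearMap.ker_eq_bot']
    rintro ⟨u, v, w⟩ e
    have e1 : u + v * η + w * η ^ 2 = 0 := congrArg Prod.fst e
    have e2 : (u : ℂ) + v * δ + w * δ ^ 2 = 0 := congrArg Prod.snd e
    have e3 := congrArg Complex.re e2
    have e4 := congrArg Complex.im e2
    simp [pow_two] at e3 e4
    have e5 : v = -2 * w * δ.re := mul_right_cancel₀ h (by linarith)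
    have e6 : w * ((η - δ.re) ^ 2 + δ.im ^ 2) = 0 := by
      rw [e5] at e1 e3; linear_combination e1 - e3
    have e7 : w = 0 := (mul_eq_zero.1 e6).resolve_right (by positivity)
    simp [e7] at e5
    simp [e7, e5] at e1
    simp [e7, e5, e1]
  obtain ⟨K, hK, hA⟩ := f.exists_antilipschitzWith hf
  exact ⟨K, hK, fun u v w => by simpa [f] using hA.le_mul_norm (map_zero f) (u, v, w)⟩

end Pool.Agent.H.MP_f878ff_nt
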