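import Pool.Agent.H.MP_f878ff_nt.A

namespace Pool.Agent.H.MP_f878ff_nt

open Finset Filter Topology

theorem cb {a b : ℤ} {η : ℝ} {δ : ℂ} (hi : δ.im ≠ 0)
    (hh : ((η, δ) : ℝ × ℂ) ^ 3 + b * (η, δ) ^ 2 + a * (η, δ) - 1 = 0) :
    ∃ K : ℝ, 0 < K ∧ ∀ p ∈ Algebra.adjoin ℤ {((η, δ) : ℝ × ℂ)}, ∃ u v w : ℤ,
      p = u + v * (η, δ) + w * (η, δ) ^ 2 ∧ |(u : ℝ)| ≤ K * ‖p‖ ∧ |(v : ℝ)| ≤ K * ‖p‖ ∧
        |(w : ℝ)| ≤ K * ‖p‖ := by
  obtain ⟨K, hK, hB⟩ := bound η δ hi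
  refine ⟨K, hK, fun p hp => ?_⟩
  obtain ⟨u, v, w, e⟩ := coords a b _ hh p hp
  have := hB u v w
  rw [show (((u : ℝ) + (v : ℝ) * η + (w : ℝ) * η ^ 2,
    ((u : ℝ) : ℂ) + ((v : ℝ) : ℂ) * δ + ((w : ℝ) : ℂ) * δ ^ 2) : ℝ × ℂ) = p by
      rw [e]; ext <;> simp] at this
  simp only [Prod.norm_mk, Real.norm_eq_abs, max_le_iff] at this
  exact ⟨u, v, w, e, this⟩

theorem pos {a b : ℤ} {β η : ℝ} {γ δ : ℂ} (hβ : 1 < β) (e1 : β * η = 1) (hγ : ‖γ‖ ≤ 1)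
    (hi : 0 < δ.im) (hh : ((η, δ) : ℝ × ℂ) ^ 3 + b * (η, δ) ^ 2 + a * (η, δ) - 1 = 0)
    (hg : ((β, γ) : ℝ × ℂ) ∈ Algebra.adjoin ℤ {((η, δ) : ℝ × ℂ)})
    (p : ℝ × ℂ) (hp : p ∈ Algebra.adjoin ℤ {((η, δ) : ℝ × ℂ)}) (h0 : 0 < p.1) :
    ∃ m, Rep η m p.1 := by
  obtain ⟨K, hK, hB⟩ := cb hi.ne' hh
  obtain ⟨k, c, A, B, hc, hA, hB', hr⟩ := relation δ hi
  have η0 : 0 < η := by nlinarith
  have η1 : η ≤ 1 := by nlinarith
  set l := (c + A * η ^ k + B * η ^ (k + 1)) * (1 + η + η ^ 2) with hl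
  have l0 : 0 < l := by positivity
  set Bd := 9 + ‖p.2‖ + (1 + ‖δ‖ ^ k + ‖δ‖ ^ (k + 1)) * ‖1 + δ + δ ^ 2‖ with hBd
  obtain ⟨N, hN⟩ := ((tendsto_pow_atTop_atTop_of_one_lt hβ).eventually
    (eventually_ge_atTop ((K * Bd + 1) * l / (p.1 * c)))).exists_forall_of_atTop
  have hN := hN (N + 1) (by omega)
  set s := β ^ (N + 1) * p.1 / l with hs
  have s0 : 0 ≤ s := by positivity
  have sc : K * Bd + 1 ≤ s * c := by
    rw [div_le_iff₀ (by positivity)] at hN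
    rw [hs, div_mul_eq_mul_div, le_div_iff₀ l0]; linarith
  have sl : β ^ (N + 1) * p.1 = s * l := by rw [hs]; field_simp
  have f1 := Nat.floor_le (mul_nonneg s0 hc.le); have g1 := Nat.lt_floor_add_one (s * c)
  have f2 := Nat.floor_le (mul_nonneg s0 hA); have g2 := Nat.lt_floor_add_one (s * A)
  have f3 := Nat.floor_le (mul_nonneg s0 hB'); have g3 := Nat.lt_floor_add_one (s * B)
  generalize ⌊s * c⌋₊ = n1 at *; generalize ⌊s * A⌋₊ = n2 at *; generalize ⌊s * B⌋₊ = n3 at *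
  have hm : ((η, δ) : ℝ × ℂ) ∈ Algebra.adjoin ℤ {((η, δ) : ℝ × ℂ)} :=
    Algebra.subset_adjoin rfl
  set q : ℝ × ℂ := (β, γ) ^ (N + 1) * p -
    (n1 + n2 * (η, δ) ^ k + n3 * (η, δ) ^ (k + 1)) * (1 + (η, δ) + (η, δ) ^ 2) with hq
  have qm : q ∈ Algebra.adjoin ℤ {((η, δ) : ℝ × ℂ)} :=
    sub_mem (mul_mem (pow_mem hg _) hp) (mul_mem (add_mem (add_mem (natCast_mem _ _)
      (mul_mem (natCast_mem _ _) (pow_mem hm _))) (mul_mem (natCast_mem _ _) (pow_mem hm _)))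
      (add_mem (add_mem (one_mem _) hm) (pow_mem hm _)))
  have q1 : q.1 = β ^ (N + 1) * p.1 - (n1 + n2 * η ^ k + n3 * η ^ (k + 1)) * (1 + η + η ^ 2) := by
    simp [hq]
  have q2 : q.2 = γ ^ (N + 1) * p.2 - (n1 + n2 * δ ^ k + n3 * δ ^ (k + 1)) * (1 + δ + δ ^ 2) := by
    simp [hq]
  have qb : ‖q‖ ≤ Bd := by
    rw [Prod.norm_def, max_le_iff]
    constructor
    · have : q.1 = ((s * c - n1) + (s * A - n2) * η ^ k + (s * B - n3) * η ^ (k + 1)) *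
          (1 + η + η ^ 2) := by rw [q1, sl, hl]; ring
      have p1 : η ^ k ≤ 1 := pow_le_one₀ η0.le η1
      have p2 : η ^ (k + 1) ≤ 1 := pow_le_one₀ η0.le η1
      have p3 : η ^ 2 ≤ 1 := pow_le_one₀ η0.le η1
      have a1 : 0 ≤ s * c - n1 := by linarith
      have a2 : 0 ≤ s * A - n2 := by linarith
      have a3 : 0 ≤ s * B - n3 := by linarith
      rw [this, Real.norm_of_nonneg (by positivity)]
      calc _ ≤ (1 + 1 * 1 + 1 * 1) * (1 + 1 + 1 : ℝ) := by gcongr <;> linarith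
        _ ≤ Bd := by
          have : 0 ≤ ‖p.2‖ + (1 + ‖δ‖ ^ k + ‖δ‖ ^ (k + 1)) * ‖1 + δ + δ ^ 2‖ := by positivity
          linarith
    · have : q.2 = γ ^ (N + 1) * p.2 + (((s * c - n1 : ℝ) : ℂ) + (s * A - n2 : ℝ) * δ ^ k +
          (s * B - n3 : ℝ) * δ ^ (k + 1)) * (1 + δ + δ ^ 2) := by
        rw [q2]; push_cast; linear_combination (-(s : ℂ) * (1 + δ + δ ^ 2)) * hr
      rw [this]
      have a1 : |s * c - n1| ≤ 1 := abs_le.2 ⟨by linarith, by linarith⟩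
      have a2 : |s * A - n2| ≤ 1 := abs_le.2 ⟨by linarith, by linarith⟩
      have a3 : |s * B - n3| ≤ 1 := abs_le.2 ⟨by linarith, by linarith⟩
      have a4 : ‖γ‖ ^ (N + 1) ≤ 1 := pow_le_one₀ (norm_nonneg _) hγ
      refine (norm_add_le _ _).trans ?_
      rw [norm_mul, norm_mul, norm_pow]
      have a5 : ‖((s * c - n1 : ℝ) : ℂ) + (s * A - n2 : ℝ) * δ ^ k +
          (s * B - n3 : ℝ) * δ ^ (k + 1)‖ ≤ 1 + 1 * ‖δ‖ ^ k + 1 * ‖δ‖ ^ (k + 1) := by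
        refine norm_add₃_le.trans ?_
        simp only [norm_mul, norm_pow, Complex.norm_real, Real.norm_eq_abs]
        gcongr
      calc _ ≤ 1 * ‖p.2‖ + (1 + 1 * ‖δ‖ ^ k + 1 * ‖δ‖ ^ (k + 1)) * ‖1 + δ + δ ^ 2‖ := by gcongr
        _ ≤ Bd := by rw [hBd]; linarith
  obtain ⟨u, v, w, e, hu, hv, hw⟩ := hB q qm
  have kb : K * ‖q‖ ≤ n1 := by nlinarith
  have nn : ∀ t : ℤ, |(t : ℝ)| ≤ K * ‖q‖ → ∃ n : ℕ, (n : ℝ) = n1 + t := fun t ht => by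
    have : (0 : ℝ) ≤ ((n1 + t : ℤ) : ℝ) := by push_cast; linarith [(abs_le.1 ht).1]
    obtain ⟨n, hn⟩ := Int.eq_ofNat_of_zero_le (by exact_mod_cast this : (0 : ℤ) ≤ n1 + t)
    exact ⟨n, by exact_mod_cast hn.symm⟩
  obtain ⟨u', hu'⟩ := nn u hu; obtain ⟨v', hv'⟩ := nn v hv; obtain ⟨w', hw'⟩ := nn w hw
  have e' : q.1 = u + v * η + w * η ^ 2 := by rw [e]; simp
  have hm' : η ∈ Algebra.adjoin ℕ {η} := Algebra.subset_adjoin rfl
  have := rep_of_mem (η := η) (x := η ^ N * (u' + v' * η + w' * η ^ 2 +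
      (n2 * η ^ k + n3 * η ^ (k + 1)) * (1 + η + η ^ 2)))
    (mul_mem (pow_mem hm' _) (add_mem (add_mem (add_mem (natCast_mem _ _)
      (mul_mem (natCast_mem _ _) hm')) (mul_mem (natCast_mem _ _) (pow_mem hm' _)))
      (mul_mem (add_mem (mul_mem (natCast_mem _ _) (pow_mem hm' _))
      (mul_mem (natCast_mem _ _) (pow_mem hm' _)))
      (add_mem (add_mem (one_mem _) hm') (pow_mem hm' _)))))
  convert this using 3
  have e3 : (β * η) ^ (N + 1) = 1 := by rw [e1, one_pow]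
  rw [hu', hv', hw']
  linear_combination η ^ (N + 1) * (e' - q1) - p.1 * e3

theorem main {a b : ℤ} {β η : ℝ} {γ δ : ℂ} (hβ : 1 < β) (e1 : β * η = 1) (hγ : ‖γ‖ < 1)
    (hi : 0 < δ.im) (hh : ((η, δ) : ℝ × ℂ) ^ 3 + b * (η, δ) ^ 2 + a * (η, δ) - 1 = 0)
    (hg : ((β, γ) : ℝ × ℂ) ∈ Algebra.adjoin ℤ {((η, δ) : ℝ × ℂ)}) :
    ∃ m, ∀ x ∈ Algebra.adjoin ℤ {β}, 0 ≤ x → x < 1 → Rep η m x := by
  obtain ⟨K, hK, hB⟩ := cb hi.ne' hh
  set C := (β + 1) / (1 - ‖γ‖) with hC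
  have hC' : C * (1 - ‖γ‖) = β + 1 := by rw [hC]; exact div_mul_cancel₀ _ (by linarith)
  have C1 : 1 ≤ C := by nlinarith [norm_nonneg γ]
  set F := {p ∈ Algebra.adjoin ℤ {((η, δ) : ℝ × ℂ)} | 0 ≤ p.1 ∧ p.1 < 1 ∧ ‖p.2‖ ≤ C} with hF
  have Ff : F.Finite := by
    set M := ⌈K * C⌉
    refine (((Set.finite_Icc (-M) M).prod ((Set.finite_Icc (-M) M).prod
      (Set.finite_Icc (-M) M))).image fun t : ℤ × ℤ × ℤ =>
        ((t.1 + t.2.1 * (η, δ) + t.2.2 * (η, δ) ^ 2 : ℝ × ℂ))).subset ?_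
    rintro p ⟨hp, p0, p1, p2⟩
    obtain ⟨u, v, w, e, hu, hv, hw⟩ := hB p hp
    have : K * ‖p‖ ≤ M := by
      refine le_trans ?_ (Int.le_ceil _)
      gcongr
      rw [Prod.norm_def, Real.norm_of_nonneg p0]; exact max_le (by linarith) p2
    have nn : ∀ t : ℤ, |(t : ℝ)| ≤ K * ‖p‖ → t ∈ Set.Icc (-M) M := fun t ht =>
      abs_le.1 (by exact_mod_cast ht.trans this)
    exact ⟨(u, v, w), ⟨nn u hu, nn v hv, nn w hw⟩, e.symm⟩
  have : ∀ p : F, ∃ m, Rep η m p.1.1 := by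
    rintro ⟨p, hp, p0, -, -⟩
    rcases p0.eq_or_lt with h | h
    · exact ⟨0, 0, 0, by simp, by simp [← h]⟩
    · exact pos hβ e1 hγ.le hi hh hg p hp h
  choose f hf using this
  have := Ff.to_subtype
  obtain ⟨m0, hm0⟩ := (Set.finite_range f).bddAbove
  refine ⟨max m0 ⌊β⌋₊, ?_⟩
  have key : ∀ n : ℕ, ∀ p ∈ Algebra.adjoin ℤ {((η, δ) : ℝ × ℂ)}, 0 ≤ p.1 → p.1 < 1 →
      ‖p.2‖ ≤ C + n → Rep η (max m0 ⌊β⌋₊) p.1 := by
    intro n
    induction n with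
    | zero =>
      intro p hp p0 p1 p2
      exact (hf ⟨p, hp, p0, p1, by simpa using p2⟩).mono
        ((hm0 ⟨_, rfl⟩).trans (le_max_left _ _))
    | succ n ih =>
      intro p hp p0 p1 p2
      by_cases h : ‖p.2‖ ≤ C + n
      · exact ih p hp p0 p1 h
      have f1 := Nat.floor_le (mul_nonneg (by linarith : 0 ≤ β) p0)
      have g1 := Nat.lt_floor_add_one (β * p.1)
      have d1 : ⌊β * p.1⌋₊ ≤ ⌊β⌋₊ := Nat.floor_le_floor (by nlinarith)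
      generalize ⌊β * p.1⌋₊ = d at *
      have := ih ((β, γ) * p - d) (sub_mem (mul_mem hg hp) (natCast_mem _ _))
        (by simp; linarith) (by simp; linarith) (by
          simp only [Prod.snd_sub, Prod.snd_mul, Prod.snd_natCast]
          refine (norm_sub_le _ _).trans ?_
          rw [norm_mul, Complex.norm_natCast]
          have : (0 : ℝ) ≤ n := by positivity
          push_cast at p2
          nlinarith)
      convert this.cons (d1.trans (le_max_right _ _)) using 1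
      simp only [Prod.fst_sub, Prod.fst_mul, Prod.fst_natCast]
      linear_combination (-p.1) * e1
  intro x hx x0 x1
  have : ∃ p ∈ Algebra.adjoin ℤ {((η, δ) : ℝ × ℂ)}, p.1 = x := by
    clear x0 x1
    induction hx using Algebra.adjoin_induction with
    | mem x hx => exact ⟨_, hg, by simp [Set.mem_singleton_iff.1 hx]⟩
    | algebraMap r => exact ⟨r, intCast_mem _ _, by simp⟩
    | add x y _ _ hx hy =>
      obtain ⟨p, hp, rfl⟩ := hx; obtain ⟨q, hq, rfl⟩ := hy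
      exact ⟨p + q, add_mem hp hq, rfl⟩
    | mul x y _ _ hx hy =>
      obtain ⟨p, hp, rfl⟩ := hx; obtain ⟨q, hq, rfl⟩ := hy
      exact ⟨p * q, mul_mem hp hq, rfl⟩
  obtain ⟨p, hp, rfl⟩ := this
  obtain ⟨n, hn⟩ := exists_nat_ge ‖p.2‖
  exact key n p hp x0 x1 (by linarith)

end Pool.Agent.H.MP_f878ff_nt
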